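import Pool.Agent.TH498.Clique.HemiTwist

set_option autoImplicit false

/-!
# The fixed point property does not imply collapsing iterated clique graphs

The counterexample is the face poset of the hemicube (4 vertices, 6 edges, 3 squares), a regular
cell decomposition of the projective plane.  It has the fixed point property, and the nontrivial
double cover of the projective plane survives all iterations of the clique graph operator.
-/

namespace Pool.Agent.Results.MP_c7efa6_co.FppNoCollapse

open Pool.Agent.TH498.Clique

/-- There is a finite nonempty ordered set `P` such that every order-preserving map `P → P` has a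
fixed point, but every iterated clique graph `K^n(G(P))` of its comparability graph has at least
two vertices. -/
theorem result : ∃ (P : Type) (_ : Fintype P) (_ : PartialOrder P),
    Nonempty P ∧ (∀ f : P → P, Monotone f → ∃ x, f x = x) ∧
      ∀ n : ℕ, Nontrivial (K^[n] ⟨P, comparabilityGraph P⟩).1 := by
  refine ⟨Hemi.Hemi, inferInstance, inferInstance, ⟨(0 : Fin 13)⟩, Hemi.hemi_fpp, fun n => ?_⟩
  haveI : Finite ((⟨Hemi.Hemi, comparabilityGraph Hemi.Hemi⟩ : Gr).1) :=
    inferInstanceAs (Finite (Fin 13))
  exact nontrivial_of_twist _ (twist_iter _ Hemi.twist_hemi n)

end Pool.Agent.Results.MP_c7efa6_co.FppNoCollapse
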